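import Pool.Agent.AT6.Stmts2
import Pool.Agent.Helper25_KF.Idm
import Pool.Agent.Helper51_AWC.Integral
import Pool.Agent.Helper88_AT3.Cgr
import Pool.Agent.Helper88_AT3.Loc
import Pool.Agent.Helper32_AT2.PWU

/-!
# Squad AT6, row APS: the matrix entries in terms of the sections of `C(W)`
-/

open scoped BigOperators

noncomputable section

namespace Pool.Agent.PP.T6.H56

open Pool.Agent.Helper51_AWC Pool.Agent.Helper79_WRA Pool.Agent.PP Pool.Agent.PP.KF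
open Pool.Agent.PP.K9 Pool.Agent.PP.K9.H97 Pool.Agent.PP.H75 Pool.Agent.PP.T3 Pool.Agent.PP.T2

attribute [local instance] Ideal.Quotient.field

section dv

variable {M : Ideal (integralClosure ℤ ℂ)} [M.IsMaximal] {m : ℂ}

theorem dv_zero : Dv M m 0 := ⟨0, (RM M).zero_mem, by rw [mul_zero]⟩

theorem dv_add {a b : ℂ} (ha : Dv M m a) (hb : Dv M m b) : Dv M m (a + b) := by
  obtain ⟨s, hs, rfl⟩ := ha
  obtain ⟨t, ht, rfl⟩ := hb
  exact ⟨s + t, (RM M).add_mem hs ht, by ring⟩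

theorem dv_neg {a : ℂ} (ha : Dv M m a) : Dv M m (-a) := by
  obtain ⟨s, hs, rfl⟩ := ha
  exact ⟨-s, (RM M).neg_mem hs, by ring⟩

theorem dv_sub {a b : ℂ} (ha : Dv M m a) (hb : Dv M m b) : Dv M m (a - b) := by
  rw [sub_eq_add_neg]
  exact dv_add ha (dv_neg hb)

theorem dv_mul {a r : ℂ} (hr : r ∈ RM M) (ha : Dv M m a) : Dv M m (r * a) := by
  obtain ⟨s, hs, rfl⟩ := ha
  exact ⟨r * s, (RM M).mul_mem hr hs, by ring⟩

theorem dv_sum {ι : Type*} (s : Finset ι) (f : ι → ℂ) (h : ∀ i ∈ s, Dv M m (f i)) :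
    Dv M m (∑ i ∈ s, f i) := by
  classical
  induction s using Finset.induction_on with
  | empty => exact dv_zero
  | insert i s hi ih =>
    rw [Finset.sum_insert hi]
    exact dv_add (h i (Finset.mem_insert_self _ _))
      (ih fun j hj => h j (Finset.mem_insert_of_mem hj))

end dv

section fv

variable {A : Type} [Group A] [Finite A]

theorem fv_eq [Fintype A] (i : A → ℂ) (z : A) (χ : A → ℂ) :
    T8.fv i z χ = ∑ g : A, i g * χ (z * g) := by
  unfold T8.fv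
  rw [finsum_eq_sum_of_fintype]

theorem fv_RM {M : Ideal (integralClosure ℤ ℂ)} [M.IsMaximal] {i χ : A → ℂ}
    (hi : ∀ x, i x ∈ RM M) (hχ : ∀ x, χ x ∈ RM M) (z : A) : T8.fv i z χ ∈ RM M := by
  have := Fintype.ofFinite A
  rw [fv_eq]
  exact Subring.sum_mem _ fun g _ => (RM M).mul_mem (hi g) (hχ _)

/-- invariance -/
theorem fv_conj {i χ : A → ℂ} {d : A} (hi : ∀ x, i (d * x * d⁻¹) = i x)
    (hχ : ∀ x y, χ (y * x * y⁻¹) = χ x) (z : A) :
    T8.fv i (d * z * d⁻¹) χ = T8.fv i z χ := by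
  have := Fintype.ofFinite A
  rw [fv_eq, fv_eq, ← Equiv.sum_comp (MulAut.conj d).toEquiv]
  refine Finset.sum_congr rfl fun g _ => ?_
  change i (d * g * d⁻¹) * χ (d * z * d⁻¹ * (d * g * d⁻¹)) = _
  rw [hi, show d * z * d⁻¹ * (d * g * d⁻¹) = d * (z * g) * d⁻¹ by group, hχ]

/-- the transfer of an idempotent -/
theorem conv (b y θ χ : A → ℂ) (hy : mulF b y = y) (hθ : ∀ x y, θ (y * x * y⁻¹) = θ x) :
    ∑ᶠ h : A, θ h * T8.fv y h⁻¹ χ = ∑ᶠ h : A, T8.fv b h θ * T8.fv y h⁻¹ χ := by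
  have := Fintype.ofFinite A
  have h1 : ∀ h : A, T8.fv y h⁻¹ χ = ∑ t : A, b t * T8.fv y (h⁻¹ * t) χ := by
    intro h
    rw [fv_eq]
    calc ∑ g : A, y g * χ (h⁻¹ * g) = ∑ g : A, mulF b y g * χ (h⁻¹ * g) := by rw [hy]
      _ = ∑ g : A, ∑ t : A, b t * y (t⁻¹ * g) * χ (h⁻¹ * g) := by
          refine Finset.sum_congr rfl fun g _ => ?_
          unfold mulF
          rw [finsum_eq_sum_of_fintype, Finset.sum_mul]
      _ = ∑ t : A, ∑ g : A, b t * y (t⁻¹ * g) * χ (h⁻¹ * g) := Finset.sum_comm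
      _ = ∑ t : A, b t * T8.fv y (h⁻¹ * t) χ := by
          refine Finset.sum_congr rfl fun t _ => ?_
          rw [fv_eq, Finset.mul_sum, ← Equiv.sum_comp (Equiv.mulLeft t)]
          refine Finset.sum_congr rfl fun g _ => ?_
          change b t * y (t⁻¹ * (t * g)) * χ (h⁻¹ * (t * g)) = _
          rw [inv_mul_cancel_left, mul_assoc h⁻¹ t g, mul_assoc]
  rw [finsum_eq_sum_of_fintype, finsum_eq_sum_of_fintype]
  calc ∑ h : A, θ h * T8.fv y h⁻¹ χ = ∑ h : A, ∑ t : A, θ h * (b t * T8.fv y (h⁻¹ * t) χ) := by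
        refine Finset.sum_congr rfl fun h _ => ?_
        rw [h1, Finset.mul_sum]
    _ = ∑ t : A, ∑ h : A, θ h * (b t * T8.fv y (h⁻¹ * t) χ) := Finset.sum_comm
    _ = ∑ t : A, ∑ h : A, θ (t * h) * (b t * T8.fv y h⁻¹ χ) := by
        refine Finset.sum_congr rfl fun t _ => ?_
        rw [← Equiv.sum_comp (Equiv.mulLeft t)]
        refine Finset.sum_congr rfl fun h _ => ?_
        change θ (t * h) * (b t * T8.fv y ((t * h)⁻¹ * t) χ) = _
        rw [show (t * h)⁻¹ * t = h⁻¹ by group]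
    _ = ∑ h : A, ∑ t : A, θ (t * h) * (b t * T8.fv y h⁻¹ χ) := Finset.sum_comm
    _ = ∑ h : A, T8.fv b h θ * T8.fv y h⁻¹ χ := by
        refine Finset.sum_congr rfl fun h _ => ?_
        rw [fv_eq b, Finset.sum_mul]
        refine Finset.sum_congr rfl fun t _ => ?_
        have h2 : θ (t * h) = θ (h * t) := by
          have h3 := hθ (t * h) t⁻¹
          rw [show t⁻¹ * (t * h) * t⁻¹⁻¹ = h * t by group] at h3
          exact h3.symm
        rw [h2]
        ring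

end fv

section sub

variable {G : Type} [Group G] [Finite G]

/-- sums over a subgroup -/
theorem sum_coe (H : Subgroup G) (P : G → Prop) (hP : ∀ x, P x → x ∈ H) (F : G → ℂ) :
    ∑ᶠ (h : H) (_ : P h), F h = ∑ᶠ (g : G) (_ : P g), F g := by
  classical
  have := Fintype.ofFinite G
  have := Fintype.ofFinite H
  have e1 : ∀ g : G, (∑ᶠ (_ : P g), F g) = if P g then F g else 0 := fun g => finsum_eq_if
  have e2 : ∀ h : H, (∑ᶠ (_ : P h), F h) = if P h then F h else 0 := fun g => finsum_eq_if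
  simp only [e1, e2]
  rw [finsum_eq_sum_of_fintype, finsum_eq_sum_of_fintype]
  rw [← Finset.sum_subset (Finset.subset_univ (Finset.univ.map
    (Function.Embedding.subtype fun x => x ∈ H)))]
  · rw [Finset.sum_map]
    rfl
  · intro x _ hx
    rw [if_neg]
    intro hPx
    apply hx
    rw [Finset.mem_map]
    exact ⟨⟨x, hP x hPx⟩, Finset.mem_univ _, rfl⟩

end sub

/-- the weights are in the local ring -/
theorem wt_RM {ℓ : ℕ} [Fact ℓ.Prime] {M : Ideal (integralClosure ℤ ℂ)} [M.IsMaximal]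
    (hM : (ℓ : integralClosure ℤ ℂ) ∈ M) (inx : K9.InxStmt) {G : Type} [Group G] [Finite G]
    {e : G → FF M} {V : Subgroup G} {γ : G → FF M} (hL : Ld ℓ e V γ) {v : G} (hv : v ∈ V) :
    wt V γ v ∈ RM M := by
  have h1 : Subgroup.centralizer (V : Set G) ≤ Tg V γ := T3.H88.cent_le_tg hL
  have h2 : Subgroup.centralizer (V : Set G) ≤ Tg V γ ⊓ Cu v := by
    refine le_inf h1 fun x hx => ?_
    rw [Subgroup.mem_centralizer_singleton_iff]
    exact (Subgroup.mem_centralizer_iff.1 hx v hv).symm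
  have hn := inx ℓ M hM G e hL.blk V hL.tp hL.ab γ hL.gam.supp hL.gam.blk hL.und
  have hn' : ¬ ℓ ∣ (Subgroup.centralizer (V : Set G)).relIndex (Tg V γ) := hn
  have e1 := Subgroup.relIndex_mul_relIndex ⊥ (Subgroup.centralizer (V : Set G)) (Tg V γ)
    bot_le h1
  have e2 := Subgroup.relIndex_mul_relIndex ⊥ (Subgroup.centralizer (V : Set G))
    (Tg V γ ⊓ Cu v) bot_le h2
  rw [Subgroup.relIndex_bot_left, Subgroup.relIndex_bot_left] at e1 e2
  have h3 := inv_nat_RM Fact.out hM hn'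
  unfold wt
  rw [← e1, ← e2]
  push_cast
  have h4 : (Nat.card (Subgroup.centralizer (V : Set G)) : ℂ) ≠ 0 := by
    exact_mod_cast Nat.card_pos.ne'
  have h5 : ((Subgroup.centralizer (V : Set G)).relIndex (Tg V γ) : ℂ) ≠ 0 := by
    have : (Subgroup.centralizer (V : Set G)).relIndex (Tg V γ) ≠ 0 := by
      intro h0
      apply hn'
      rw [h0]
      exact dvd_zero _
    exact_mod_cast this
  rw [mul_div_mul_left _ _ h4, div_eq_mul_inv]
  exact (RM M).mul_mem (natCast_mem (RM M) _) h3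

/-- sums over a set which contains the centraliser of `V ^ (ℓ ^ c)` -/
theorem or6_diff (or6 : Or6Stmt) {ℓ : ℕ} [Fact ℓ.Prime] {M : Ideal (integralClosure ℤ ℂ)}
    [M.IsMaximal] {G : Type} [Group G] [Finite G] {V : Subgroup G} (hV : IsPGroup ℓ V)
    (hab : ∀ a ∈ V, ∀ b ∈ V, a * b = b * a) (c : ℕ)
    (hN : ∀ d ∈ V, ∀ x, x ∈ Subgroup.centralizer (Uw (ℓ ^ c) V : Set G) →
      d * x * d⁻¹ ∈ Subgroup.centralizer (Uw (ℓ ^ c) V : Set G)) (S : Set G)
    (hS : ∀ d ∈ V, ∀ x ∈ S, d * x * d⁻¹ ∈ S)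
    (hCS : (Subgroup.centralizer (Uw (ℓ ^ c) V : Set G) : Set G) ⊆ S) {F : G → ℂ}
    (hF : ∀ x, F x ∈ RM M) (hFi : ∀ d ∈ V, ∀ x, F (d * x * d⁻¹) = F x) :
    Dv M ((ℓ : ℂ) ^ c) (∑ᶠ (x : G) (_ : x ∈ S), F x -
      ∑ᶠ (x : G) (_ : x ∈ (Subgroup.centralizer (Uw (ℓ ^ c) V : Set G) : Set G)), F x) := by
  have h1 := finsum_mem_add_sdiff hCS (Set.toFinite S) (f := F)
  rw [← h1, add_sub_cancel_left]
  refine or6 ℓ M G V hV hab c _ ?_ ?_ F hF hFi
  · rintro d hd x ⟨hx1, hx2⟩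
    refine ⟨hS d hd x hx1, fun h => hx2 ?_⟩
    have h2 := hN d⁻¹ (V.inv_mem hd) _ h
    rw [show d⁻¹ * (d * x * d⁻¹) * d⁻¹⁻¹ = x by group] at h2
    exact h2
  · rintro x ⟨-, hx⟩
    exact hx

/-- sums of functions which vanish off a subgroup -/
theorem sum_ext {G : Type} [Group G] [Finite G] (H : Subgroup G) (F : G → ℂ)
    (h0 : ∀ x, x ∉ H → F x = 0) : ∑ᶠ g : G, F g = ∑ᶠ h : H, F h := by
  classical
  have h1 := sum_coe H (fun x => x ∈ H) (fun x hx => hx) F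
  have h2 : ∀ h : H, (∑ᶠ (_ : (h : G) ∈ H), F h) = F h := fun h => by
    rw [finsum_eq_if, if_pos h.2]
  have h3 : ∀ g : G, (∑ᶠ (_ : g ∈ H), F g) = F g := fun g => by
    rw [finsum_eq_if]
    by_cases hg : g ∈ H
    · rw [if_pos hg]
    · rw [if_neg hg, h0 g hg]
  rw [finsum_congr h2, finsum_congr h3] at h1
  exact h1.symm

section core

variable {G : Type} [Group G] [Finite G] {ℓ : ℕ} [Fact ℓ.Prime]
  {M : Ideal (integralClosure ℤ ℂ)} [M.IsMaximal]

theorem core (or6 : Or6Stmt) {V H : Subgroup G} (hVp : IsPGroup ℓ V)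
    (hab : ∀ a ∈ V, ∀ b ∈ V, a * b = b * a) (hVH : V ≤ H) (c : ℕ)
    (hCH : Subgroup.centralizer (Uw (ℓ ^ c) V : Set G) ≤ H)
    (hN : ∀ d ∈ V, ∀ x, x ∈ Subgroup.centralizer (Uw (ℓ ^ c) V : Set G) →
      d * x * d⁻¹ ∈ Subgroup.centralizer (Uw (ℓ ^ c) V : Set G))
    (b y : H → ℂ) (hbR : ∀ x, b x ∈ RM M) (hbc : ∀ x y, b (y * x * y⁻¹) = b x)
    (hyR : ∀ x, y x ∈ RM M) (hyV : ∀ v : H, (v : G) ∈ V → ∀ x, y (v * x * v⁻¹) = y x)
    (hby : mulF b y = y) (θ χ' : G → ℂ) (hθ : ∀ x y, θ (y * x * y⁻¹) = θ x)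
    (hθR : ∀ x, θ x ∈ RM M) (hχ' : ∀ x y, χ' (y * x * y⁻¹) = χ' x) (hχR : ∀ x, χ' x ∈ RM M)
    (P : H → Prop) (hP : ∀ v' : H, P v' → (v' : G) ∈ V) (wt' : H → ℂ)
    (hwt : ∀ v' : H, (v' : G) ∈ V → wt' v' ∈ RM M) (sθ sχ : H → H → ℂ)
    (hsec : ∀ h : H, T8.fv b h (fun t : H => θ t) =
      ∑ᶠ (v' : H) (_ : (v' : G) ∈ V), wt' v' * sθ v' h)
    (hb1 : ∀ v' : H, (v' : G) ∈ V → P v' → ∀ h : H,
      (h : G) ∈ Subgroup.centralizer (Uw (ℓ ^ c) V : Set G) →
        Dv M ((ℓ : ℂ) ^ c) (sθ v' h - sχ v' h))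
    (hb2 : ∀ v' : H, (v' : G) ∈ V → ¬ P v' → ∀ h : H,
      (h : G) ∈ Subgroup.centralizer (Uw (ℓ ^ c) V : Set G) → Dv M ((ℓ : ℂ) ^ c) (sθ v' h)) :
    Dv M ((ℓ : ℂ) ^ c) (∑ᶠ g : G, θ g * T8.fv (H75.ext0 H y) g⁻¹ χ' -
      ∑ᶠ (v' : H) (_ : P v'), wt' v' * ∑ᶠ (h : H)
        (_ : (h : G) ∈ Subgroup.centralizer (Uw (ℓ ^ c) V : Set G)),
          sχ v' h * T8.fv y h⁻¹ (fun t : H => χ' t)) := by
  classical
  have := Fintype.ofFinite G
  have := Fintype.ofFinite H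
  obtain ⟨C, hC⟩ : ∃ C : Subgroup G, C = Subgroup.centralizer (Uw (ℓ ^ c) V : Set G) := ⟨_, rfl⟩
  have hor := or6_diff or6 hVp hab c hN (M := M)
  rw [← hC] at hCH hor
  simp only [← hC] at hb1 hb2
  rw [← hC]
  -- the function `φ`
  obtain ⟨φ, hφ⟩ : ∃ φ : G → ℂ, φ = fun g => T8.fv (H75.ext0 H y) g⁻¹ χ' := ⟨_, rfl⟩
  have hφ' : ∀ g, T8.fv (H75.ext0 H y) g⁻¹ χ' = φ g := fun g => by rw [hφ]
  have hyR' : ∀ x, H75.ext0 H y x ∈ RM M := by
    intro x
    by_cases hx : x ∈ H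
    · have h1 := H75.ext0_apply H y ⟨x, hx⟩
      rw [h1]
      exact hyR _
    · rw [H75.ext0_supp H y x hx]
      exact (RM M).zero_mem
  have hφR : ∀ g, φ g ∈ RM M := by
    intro g
    rw [← hφ']
    exact fv_RM hyR' hχR _
  have hyi : ∀ d ∈ V, ∀ x, H75.ext0 H y (d * x * d⁻¹) = H75.ext0 H y x := by
    intro d hd x
    by_cases hx : x ∈ H
    · have h1 := H75.ext0_apply H y ⟨x, hx⟩
      have h2 := H75.ext0_apply H y (⟨d, hVH hd⟩ * ⟨x, hx⟩ * (⟨d, hVH hd⟩ : H)⁻¹)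
      rw [hyV ⟨d, hVH hd⟩ hd] at h2
      exact h2.trans h1.symm
    · have hx' : d * x * d⁻¹ ∉ H := by
        intro h
        apply hx
        have h2 := H.mul_mem (H.mul_mem (H.inv_mem (hVH hd)) h) (hVH hd)
        rwa [show d⁻¹ * (d * x * d⁻¹) * d = x by group] at h2
      rw [H75.ext0_supp H y x hx, H75.ext0_supp H y _ hx']
  have hφi : ∀ d ∈ V, ∀ x, φ (d * x * d⁻¹) = φ x := by
    intro d hd x
    rw [← hφ', ← hφ', show (d * x * d⁻¹)⁻¹ = d * x⁻¹ * d⁻¹ by group]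
    exact fv_conj (hyi d hd) hχ' _
  have hφH : ∀ h : H, T8.fv y h⁻¹ (fun t : H => χ' t) = φ h := by
    intro h
    rw [← hφ']
    unfold T8.fv
    rw [sum_ext H (fun g => H75.ext0 H y g * χ' ((h : G)⁻¹ * g)) (fun x hx => by
      rw [H75.ext0_supp H y x hx, zero_mul])]
    refine finsum_congr fun x => ?_
    rw [H75.ext0_apply]
    rfl
  simp only [hφ', hφH]
  -- the sums
  obtain ⟨θ', hθ'⟩ : ∃ θ' : H → ℂ, θ' = fun h => T8.fv b h (fun t : H => θ t) := ⟨_, rfl⟩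
  have hθ'R : ∀ x, θ' x ∈ RM M := by
    intro x
    rw [hθ']
    exact fv_RM hbR (fun t => hθR t) _
  have hcore : ∑ᶠ h : H, θ h * φ h = ∑ᶠ h : H, θ' h * φ h := by
    have h1 := conv b y (fun t : H => θ t) (fun t : H => χ' t) hby (fun x y => hθ x y)
    simp only [hφH] at h1
    rw [hθ']
    exact h1
  have s1 : ∑ᶠ (g : G) (_ : g ∈ (H : Set G)), θ g * φ g = ∑ᶠ h : H, θ h * φ h := by
    rw [← sum_coe H (fun x => x ∈ (H : Set G)) (fun x hx => hx) (fun g => θ g * φ g)]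
    refine finsum_congr fun h => ?_
    rw [finsum_eq_if, if_pos (show (h : G) ∈ (H : Set G) from h.2)]
  have hF'i : ∀ d ∈ V, ∀ x, H75.ext0 H θ' (d * x * d⁻¹) * φ (d * x * d⁻¹) =
      H75.ext0 H θ' x * φ x := by
    intro d hd x
    rw [hφi d hd]
    congr 1
    by_cases hx : x ∈ H
    · have h1 := H75.ext0_apply H θ' ⟨x, hx⟩
      have h2 := H75.ext0_apply H θ' (⟨d, hVH hd⟩ * ⟨x, hx⟩ * (⟨d, hVH hd⟩ : H)⁻¹)
      have h3 : θ' (⟨d, hVH hd⟩ * ⟨x, hx⟩ * (⟨d, hVH hd⟩ : H)⁻¹) = θ' ⟨x, hx⟩ := by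
        rw [hθ']
        exact fv_conj (fun z => hbc z _) (fun x y => hθ x y) _
      rw [h3] at h2
      exact h2.trans h1.symm
    · have hx' : d * x * d⁻¹ ∉ H := by
        intro h
        apply hx
        have h2 := H.mul_mem (H.mul_mem (H.inv_mem (hVH hd)) h) (hVH hd)
        rwa [show d⁻¹ * (d * x * d⁻¹) * d = x by group] at h2
      rw [H75.ext0_supp H θ' x hx, H75.ext0_supp H θ' _ hx']
  have s2 : ∑ᶠ (g : G) (_ : g ∈ (H : Set G)), H75.ext0 H θ' g * φ g = ∑ᶠ h : H, θ' h * φ h := by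
    rw [← sum_coe H (fun x => x ∈ (H : Set G)) (fun x hx => hx)
      (fun g => H75.ext0 H θ' g * φ g)]
    refine finsum_congr fun h => ?_
    rw [finsum_eq_if, if_pos (show (h : G) ∈ (H : Set G) from h.2), H75.ext0_apply]
  have s3 : ∑ᶠ (g : G) (_ : g ∈ (C : Set G)), H75.ext0 H θ' g * φ g =
      ∑ᶠ (h : H) (_ : (h : G) ∈ C), θ' h * φ h := by
    rw [← sum_coe H (fun x => x ∈ (C : Set G)) (fun x hx => hCH hx)
      (fun g => H75.ext0 H θ' g * φ g)]
    refine finsum_congr fun h => ?_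
    rw [H75.ext0_apply]
    rfl
  have d1 := hor Set.univ (fun d _ x _ => Set.mem_univ _) (Set.subset_univ _)
    (F := fun g => θ g * φ g) (fun x => (RM M).mul_mem (hθR x) (hφR x))
    (fun d hd x => by
      change θ (d * x * d⁻¹) * φ (d * x * d⁻¹) = θ x * φ x
      rw [hθ, hφi d hd])
  rw [finsum_mem_univ] at d1
  have hHst : ∀ d ∈ V, ∀ x ∈ (H : Set G), d * x * d⁻¹ ∈ (H : Set G) := fun d hd x hx =>
    H.mul_mem (H.mul_mem (hVH hd) hx) (H.inv_mem (hVH hd))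
  have d2 := hor (H : Set G) hHst hCH
    (F := fun g => θ g * φ g) (fun x => (RM M).mul_mem (hθR x) (hφR x))
    (fun d hd x => by
      change θ (d * x * d⁻¹) * φ (d * x * d⁻¹) = θ x * φ x
      rw [hθ, hφi d hd])
  have d3 := hor (H : Set G) hHst hCH
    (F := fun g => H75.ext0 H θ' g * φ g) (fun x => by
      refine (RM M).mul_mem ?_ (hφR x)
      by_cases hx : x ∈ H
      · have h1 := H75.ext0_apply H θ' ⟨x, hx⟩
        rw [h1]
        exact hθ'R _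
      · rw [H75.ext0_supp H θ' x hx]
        exact (RM M).zero_mem)
    hF'i
  rw [s1] at d2
  rw [s2, s3] at d3
  -- the last step
  have d4 : Dv M ((ℓ : ℂ) ^ c) (∑ᶠ (h : H) (_ : (h : G) ∈ C), θ' h * φ h -
      ∑ᶠ (v' : H) (_ : P v'), wt' v' * ∑ᶠ (h : H) (_ : (h : G) ∈ C), sχ v' h * φ h) := by
    have e1 : ∑ᶠ (h : H) (_ : (h : G) ∈ C), θ' h * φ h = ∑ v' : H, ∑ h : H,
        if (v' : G) ∈ V ∧ (h : G) ∈ C then wt' v' * sθ v' h * φ h else 0 := by
      rw [Finset.sum_comm, finsum_eq_sum_of_fintype]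
      refine Finset.sum_congr rfl fun h _ => ?_
      rw [finsum_eq_if]
      by_cases hh : (h : G) ∈ C
      · rw [if_pos hh, show θ' h = _ from (congrFun hθ' h).trans (hsec h),
          finsum_eq_sum_of_fintype, Finset.sum_mul]
        refine Finset.sum_congr rfl fun v' _ => ?_
        rw [finsum_eq_if]
        by_cases hv' : (v' : G) ∈ V
        · rw [if_pos hv', if_pos ⟨hv', hh⟩]
        · rw [if_neg hv', if_neg (fun h => hv' h.1), zero_mul]
      · rw [if_neg hh]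
        refine (Finset.sum_eq_zero fun v' _ => ?_).symm
        rw [if_neg (fun h => hh h.2)]
    have e2 : ∑ᶠ (v' : H) (_ : P v'), wt' v' * ∑ᶠ (h : H) (_ : (h : G) ∈ C), sχ v' h * φ h =
        ∑ v' : H, ∑ h : H, if P v' ∧ (h : G) ∈ C then wt' v' * sχ v' h * φ h else 0 := by
      rw [finsum_eq_sum_of_fintype]
      refine Finset.sum_congr rfl fun v' _ => ?_
      rw [finsum_eq_if]
      by_cases hv' : P v'
      · rw [if_pos hv', finsum_eq_sum_of_fintype, Finset.mul_sum]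
        refine Finset.sum_congr rfl fun h _ => ?_
        rw [finsum_eq_if]
        by_cases hh : (h : G) ∈ C
        · rw [if_pos hh, if_pos ⟨hv', hh⟩, mul_assoc]
        · rw [if_neg hh, if_neg (fun h => hh h.2), mul_zero]
      · rw [if_neg hv']
        refine (Finset.sum_eq_zero fun h _ => ?_).symm
        rw [if_neg (fun h => hv' h.1)]
    rw [e1, e2, ← Finset.sum_sub_distrib]
    refine dv_sum _ _ fun v' _ => ?_
    rw [← Finset.sum_sub_distrib]
    refine dv_sum _ _ fun h _ => ?_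
    by_cases hh : (h : G) ∈ C
    · by_cases hv' : (v' : G) ∈ V
      · by_cases hPv : P v'
        · rw [if_pos ⟨hv', hh⟩, if_pos ⟨hPv, hh⟩]
          have h1 := hb1 v' hv' hPv h hh
          have h2 := dv_mul ((RM M).mul_mem (hwt v' hv') (hφR h)) h1
          have h3 : wt' v' * sθ v' h * φ h - wt' v' * sχ v' h * φ h =
            wt' v' * φ h * (sθ v' h - sχ v' h) := by ring
          rw [h3]
          exact h2
        · rw [if_pos ⟨hv', hh⟩, if_neg (fun h => hPv h.1), sub_zero]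
          have h1 := hb2 v' hv' hPv h hh
          have h2 := dv_mul ((RM M).mul_mem (hwt v' hv') (hφR h)) h1
          have h3 : wt' v' * sθ v' h * φ h = wt' v' * φ h * sθ v' h := by ring
          rw [h3]
          exact h2
      · rw [if_neg (fun h => hv' h.1), if_neg (fun h => hv' (hP v' h.1)), sub_zero]
        exact dv_zero
    · rw [if_neg (fun h => hh h.2), if_neg (fun h => hh h.2), sub_zero]
      exact dv_zero
  have hfin := dv_add (dv_add (dv_sub d1 d2) d3) d4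
  rw [hcore] at hfin
  have h9 : ∀ a₀ a₁ a₃ a₄ a₅ : ℂ, a₀ - a₁ - (a₃ - a₁) + (a₃ - a₄) + (a₄ - a₅) = a₀ - a₅ := by
    intro a₀ a₁ a₃ a₄ a₅
    ring
  rw [h9] at hfin
  exact hfin

end core

/-- APS -/
theorem aps (yid : YidStmt) (or6 : Or6Stmt) (sec : SecStmt) (blk : BlkStmt) (lwd : LwdStmt)
    (svv : SvvStmt) (inx : K9.InxStmt) : ApsStmt := by
  intro ℓ _ M _ hM G _ _ e V γ hL c V₁ W hV₁ hW f hf g hg y hyR hyV hfy χ hχ χ' hχ' v hv b hb
  obtain ⟨hmem1, h1V, hN1, -⟩ := T2.H32.pwu G (ℓ ^ c) V hL.ab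
  obtain ⟨hmem2, h2V, -⟩ := T2.H32.pwu G (ℓ ^ (2 * c)) V hL.ab
  have hWV₁ : W ≤ V₁ := by
    intro x hx
    rw [hW] at hx
    obtain ⟨w, hw, rfl⟩ := (hmem2 x).1 hx
    rw [hV₁, hmem1]
    refine ⟨w ^ ℓ ^ c, V.pow_mem hw _, ?_⟩
    rw [← pow_mul, ← pow_add]
    congr 2
    ring
  have hWV : W ≤ V := by
    rw [hW]
    exact h2V
  have hVH : V ≤ Subgroup.centralizer (W : Set G) := by
    intro x hx
    rw [Subgroup.mem_centralizer_iff]
    intro w hw
    exact hL.ab w (hWV hw) x hx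
  have hCH : Subgroup.centralizer (V₁ : Set G) ≤ Subgroup.centralizer (W : Set G) :=
    Subgroup.centralizer_le hWV₁
  obtain ⟨-, hlw⟩ := lwd ℓ M hM G e V γ hL W hWV
  obtain ⟨hLf, hTg⟩ := hlw f hf
  have hN : ∀ d ∈ V, ∀ x, x ∈ Subgroup.centralizer (V₁ : Set G) →
      d * x * d⁻¹ ∈ Subgroup.centralizer (V₁ : Set G) := by
    intro d hd x hx
    have hdc : d ∈ Subgroup.centralizer (V₁ : Set G) := by
      rw [Subgroup.mem_centralizer_iff]
      intro w hw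
      rw [hV₁] at hw
      exact hL.ab w (h1V hw) d hd
    exact Subgroup.mul_mem _ (Subgroup.mul_mem _ hdc hx) (Subgroup.inv_mem _ hdc)
  -- class functions
  have hχc : ∀ x y, χ (y * x * y⁻¹) = χ x := fun x y => irr_conj hχ x y
  have hχ'c : ∀ x y, χ' (y * x * y⁻¹) = χ' x := fun x y => irr_conj hχ' x y
  have hχR : ∀ x, χ x ∈ RM M := fun x => RM_of_int (irr_integral hχ x)
  have hχ'R : ∀ x, χ' x ∈ RM M := fun x => RM_of_int (irr_integral hχ' x)
  obtain ⟨-, -, sv3, sv4, -⟩ := svv ℓ M hM G v b hb.blk.ix χ hχc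
  obtain ⟨i1, i2, -⟩ := KF.H25.idm M _ (fun t : Subgroup.centralizer (W : Set G) => f t) hf.blk.blk.1
  -- the orbit
  obtain ⟨P, hP⟩ : ∃ P : Subgroup.centralizer (W : Set G) → Prop,
    P = fun v' : Subgroup.centralizer (W : Set G) =>
      ∃ t ∈ Tg V γ, t * v * t⁻¹ = (v' : G) := ⟨_, rfl⟩
  have hPV : ∀ v' : Subgroup.centralizer (W : Set G), P v' → (v' : G) ∈ V := by
    intro v' h
    rw [hP] at h
    obtain ⟨t, ht, ht2⟩ := h
    rw [← ht2]
    exact (Subgroup.mem_normalizer_iff.1 ht.1 v).1 hv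
  have hmain := core or6 hL.tp.pg hL.ab hVH c (by rw [← hV₁]; exact hCH)
    (by rw [← hV₁]; exact hN)
    (eh M (fun t : Subgroup.centralizer (W : Set G) => f t)) y (fun x => (i1 x).1)
    (fun x y => i2.1 x y) hyR hyV hfy (sv M ℓ v b χ) χ' sv3 (sv4 hχR) hχ'c hχ'R P hPV
    (fun v' => wt (V.subgroupOf (Subgroup.centralizer (W : Set G)))
      (fun t : Subgroup.centralizer (W : Set G) => γ t) v')
    (fun v' hv' => wt_RM hM inx hLf hv')
    (fun v' h => sv M ℓ v' (g v')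
      (fun t : Subgroup.centralizer (W : Set G) => sv M ℓ v b χ t) h)
    (fun v' h => sv M ℓ v' (g v')
      (fun t : Subgroup.centralizer (W : Set G) => χ t) h)
    (fun h => sec ℓ M hM _ _ _ _ hLf g hg _ (fun x y => sv3 x y) h)
    (fun v' hv' hPv h hh => (blk ℓ M hM G e V γ hL c V₁ W hV₁ hW f hf v hv b hb v' hv' (g v')
      (hg v' hv') χ hχc hχR h (by rw [hV₁]; exact hh)).1 (by rw [hP] at hPv; exact hPv))
    (fun v' hv' hPv h hh => (blk ℓ M hM G e V γ hL c V₁ W hV₁ hW f hf v hv b hb v' hv' (g v')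
      (hg v' hv') χ hχc hχR h (by rw [hV₁]; exact hh)).2 (by rw [hP] at hPv; exact hPv))
  rw [yid ℓ M hM G v (T3.H88.el_of_mem hL.tp.pg hv) b hb.blk.ix χ hχc χ' hχ'] at hmain
  have h1 := dv_mul (natCast_mem (RM M)
    ((Subgroup.centralizer (V : Set G)).relIndex (Tg V γ ⊓ Cu v))) hmain
  rw [mul_sub] at h1
  have hchv : chv (H75.ext0 (Subgroup.centralizer (W : Set G)) y) χ' =
      ∑ᶠ x : Subgroup.centralizer (W : Set G), y x * χ' x := by
    unfold chv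
    rw [sum_ext (Subgroup.centralizer (W : Set G))
      (fun x => H75.ext0 (Subgroup.centralizer (W : Set G)) y x * χ' x) (fun x hx => by
      rw [H75.ext0_supp _ y x hx, zero_mul])]
    refine finsum_congr fun x => ?_
    rw [H75.ext0_apply]
  have hVn : (Nat.card V : ℂ) ≠ 0 := by
    exact_mod_cast Nat.card_pos.ne'
  rw [hchv] at h1
  obtain ⟨S, hS⟩ : ∃ S, S = ∑ᶠ x : Subgroup.centralizer (W : Set G), y x * χ' x := ⟨_, rfl⟩
  rw [← hS] at h1 ⊢
  have e1 : (Nat.card G * S / (Nat.card V * χ' 1)) * Mm M ℓ V γ v b χ χ' =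
      ((Subgroup.centralizer (V : Set G)).relIndex (Tg V γ ⊓ Cu v) : ℂ) *
        (Nat.card G * S / χ' 1 * Pm M ℓ v b χ χ') := by
    unfold Mm
    by_cases h0 : χ' 1 = 0
    · rw [h0]
      simp
    · field_simp
  rw [e1]
  rw [← hV₁, hP] at h1
  exact h1

end Pool.Agent.PP.T6.H56
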