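import Pool.Agent.AT6.Stmts1
import Pool.Agent.Helper21_AT8.RVA
import Pool.Agent.Helper53_AT8.FCH
import Pool.Agent.Helper51_AWC.Integral
import Pool.Agent.Helper56_AT6.APS

/-!
# Squad AT6, row CNA: congruences for the characters fixed by the power map
-/

open scoped BigOperators

noncomputable section

namespace Pool.Agent.PP.T6.H56

open Pool.Agent.Helper51_AWC Pool.Agent.Helper79_WRA Pool.Agent.PP Pool.Agent.PP.KF
open Pool.Agent.PP.K9 Pool.Agent.PP.K9.H97 Pool.Agent.PP.H75 Pool.Agent.PP.T3 Pool.Agent.PP.T2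

attribute [local instance] Ideal.Quotient.field

section arith

variable {G : Type} [Group G] [Finite G]

/-- the exponent which gives the `ℓ`-part -/
theorem exists_e (ℓ : ℕ) [hp : Fact ℓ.Prime] (N : ℕ) (h5 : T5.G5 G ℓ N) :
    ∃ e K : ℕ, (∀ g : G, El ℓ g → g ^ e = g) ∧ (∀ g : G, g ^ (e * ℓ ^ K) = 1) ∧
      ∀ i : ℕ, (1 + e * ℓ ^ T5.ep ℓ * i).Coprime (Nat.card G) ∧
        ∃ k : ℕ, ∀ g : G, g ^ N ^ k = g ^ (1 + e * ℓ ^ T5.ep ℓ * i) := by
  have hℓ : ℓ.Prime := hp.out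
  have hn : Nat.card G ≠ 0 := Nat.card_pos.ne'
  obtain ⟨K, n', hn', hcard⟩ := Nat.exists_eq_pow_mul_and_not_dvd hn ℓ hℓ.ne_one
  have hcop : (ℓ ^ K).Coprime n' := Nat.Coprime.pow_left K ((Nat.Prime.coprime_iff_not_dvd hℓ).2 hn')
  obtain ⟨e, he1, he2⟩ := Nat.chineseRemainder hcop 1 0
  obtain ⟨e', he1', he2'⟩ := Nat.chineseRemainder hcop 0 1
  have hen : n' ∣ e := (Nat.modEq_zero_iff_dvd).1 he2
  have heK' : ℓ ^ K ∣ e' := (Nat.modEq_zero_iff_dvd).1 he1'
  have hall : ∀ (g : G) (m : ℕ), Nat.card G ∣ m → g ^ m = 1 := by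
    intro g m hm
    rw [← orderOf_dvd_iff_pow_eq_one]
    exact (orderOf_dvd_natCard g).trans hm
  have hE2 : ∀ g : G, g ^ (e * ℓ ^ K) = 1 := by
    intro g
    apply hall
    rw [hcard, mul_comm]
    exact Nat.mul_dvd_mul hen (dvd_refl _)
  have hE1 : ∀ g : G, El ℓ g → g ^ e = g := by
    intro g hg
    obtain ⟨m, hm⟩ := hg
    obtain ⟨t, -, ht⟩ := (Nat.dvd_prime_pow hℓ).1 (orderOf_dvd_iff_pow_eq_one.2 hm)
    have h1 : ℓ ^ t ∣ ℓ ^ K := by
      have h2 : ℓ ^ t ∣ ℓ ^ K * n' := by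
        rw [← ht, ← hcard]
        exact orderOf_dvd_natCard g
      exact Nat.Coprime.dvd_of_dvd_mul_right
        (Nat.Coprime.pow_left t ((Nat.Prime.coprime_iff_not_dvd hℓ).2 hn')) h2
    have h3 : e ≡ 1 [MOD orderOf g] := by
      rw [ht]
      exact he1.of_dvd h1
    have h4 := pow_eq_pow_iff_modEq.2 h3
    rwa [pow_one] at h4
  have hEl : ∀ g : G, El ℓ (g ^ e) := fun g => ⟨K, by rw [← pow_mul, hE2]⟩
  have hReg : ∀ g : G, Reg ℓ (g ^ e') := by
    intro g
    unfold Reg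
    have h1 : orderOf (g ^ e') ∣ n' := by
      rw [orderOf_dvd_iff_pow_eq_one, ← pow_mul]
      apply hall
      rw [hcard]
      exact Nat.mul_dvd_mul heK' (dvd_refl _)
    exact Nat.Coprime.coprime_dvd_left h1
      (((Nat.Prime.coprime_iff_not_dvd hℓ).2 hn').symm)
  have hee : ∀ g : G, g ^ (e + e') = g := by
    intro g
    have h1 : e + e' ≡ 1 [MOD ℓ ^ K * n'] := by
      rw [← Nat.modEq_and_modEq_iff_modEq_mul hcop]
      constructor
      · have := he1.add he1'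
        rwa [add_zero] at this
      · have := he2.add he2'
        rwa [zero_add] at this
    rw [← hcard] at h1
    have h2 := pow_eq_pow_iff_modEq.2 (h1.of_dvd (orderOf_dvd_natCard g))
    rwa [pow_one] at h2
  refine ⟨e, K, hE1, hE2, fun i => ⟨?_, ?_⟩⟩
  · rw [hcard]
    apply Nat.Coprime.mul_right
    · apply Nat.Coprime.pow_right
      have h1 : ℓ ∣ e * ℓ ^ T5.ep ℓ * i := by
        have h2 : ℓ ∣ ℓ ^ T5.ep ℓ := by
          apply dvd_pow_self
          unfold T5.ep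
          split_ifs <;> norm_num
        exact Dvd.dvd.mul_right (Dvd.dvd.mul_left h2 e) i
      obtain ⟨s, hs⟩ := h1
      rw [hs]
      simp
    · obtain ⟨s, hs⟩ := hen
      rw [hs, mul_assoc, mul_assoc]
      simp
  · obtain ⟨k, hk⟩ := h5.gen 1 (1 + ℓ ^ T5.ep ℓ * i) (fun h => hℓ.one_lt.ne'
      (Nat.dvd_one.1 h)) (by
        have : (1 + ℓ ^ T5.ep ℓ * i) ≡ 1 [MOD ℓ ^ T5.ep ℓ] := by
          unfold Nat.ModEq
          rw [Nat.add_mul_mod_self_left]
        exact this.symm)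
    refine ⟨k, fun g => ?_⟩
    have hr : ∀ j : ℕ, (g ^ e') ^ N ^ j = g ^ e' := by
      intro j
      induction j with
      | zero => rw [pow_zero, pow_one]
      | succ j ih => rw [pow_succ, pow_mul, ih, h5.reg _ (hReg g)]
    have h1 := hk (g ^ e) (hEl g)
    rw [pow_one] at h1
    calc g ^ N ^ k = (g ^ (e + e')) ^ N ^ k := by rw [hee]
      _ = (g ^ e) ^ N ^ k * (g ^ e') ^ N ^ k := by
          rw [pow_add, Commute.mul_pow (Commute.pow_pow_self g e e')]
      _ = g ^ (e * (1 + ℓ ^ T5.ep ℓ * i)) * g ^ e' := by rw [h1, hr, ← pow_mul]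
      _ = g ^ (e + e') * g ^ (e * ℓ ^ T5.ep ℓ * i) := by
          rw [← pow_add, ← pow_add]
          congr 1
          ring
      _ = g ^ (1 + e * ℓ ^ T5.ep ℓ * i) := by rw [hee, pow_add, pow_one]

end arith

section chars

variable {A : Type} [Group A] [Finite A]

theorem lam_ne (lam : A →* ℂ) (v : A) : lam v ≠ 0 := by
  intro h
  have h1 := T8.H21.lam_inv lam v
  rw [h, zero_mul] at h1
  exact zero_ne_one h1

theorem hom_pow_card (lam : A →* ℂ) : lam ^ Nat.card A = 1 := by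
  ext v
  rw [MonoidHom.pow_apply, T8.H21.lam_pow, MonoidHom.one_apply]

theorem one_add_pow (E i t : ℕ) : ∃ i', (1 + E * i) ^ t = 1 + E * i' := by
  induction t with
  | zero => exact ⟨0, by simp⟩
  | succ t ih =>
    obtain ⟨i', hi'⟩ := ih
    exact ⟨i' + i + E * i * i', by rw [pow_succ, hi']; ring⟩

/-- the equivalence relation on the characters -/
def rel (A : Type) [Group A] [Finite A] (E : ℕ)
    (hE : ∀ i : ℕ, (1 + E * i).Coprime (Nat.card A)) : Setoid (A →* ℂ) where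
  r lam lam' := ∃ i, lam' = lam ^ (1 + E * i)
  iseqv := by
    refine ⟨fun lam => ⟨0, by simp⟩, ?_, ?_⟩
    · rintro lam lam' ⟨i, rfl⟩
      have h1 := Nat.ModEq.pow_totient (hE i)
      have hpos : 0 < (Nat.card A).totient := Nat.totient_pos.2 Nat.card_pos
      obtain ⟨i', hi'⟩ := one_add_pow E i ((Nat.card A).totient - 1)
      refine ⟨i', ?_⟩
      rw [← hi', ← pow_mul, ← pow_succ', Nat.sub_add_cancel hpos]
      have h2 : ∀ m : ℕ, m ≡ 1 [MOD Nat.card A] → lam ^ m = lam := by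
        intro m hm
        have h3 : lam ^ (m % Nat.card A) = lam ^ m := by
          conv_rhs => rw [← Nat.div_add_mod m (Nat.card A)]
          rw [pow_add, pow_mul, hom_pow_card, one_pow, one_mul]
        have h4 : lam ^ (1 % Nat.card A) = lam ^ 1 := by
          conv_rhs => rw [← Nat.div_add_mod 1 (Nat.card A)]
          rw [pow_add, pow_mul, hom_pow_card, one_pow, one_mul]
        rw [← h3, hm, h4, pow_one]
      exact (h2 _ h1).symm
    · rintro lam _ _ ⟨i, rfl⟩ ⟨j, rfl⟩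
      refine ⟨i + j + E * i * j, ?_⟩
      rw [← pow_mul]
      congr 1
      ring

/-- sums over a class -/
theorem class_sum [Fintype (A →* ℂ)] (E : ℕ) (hE : ∀ i : ℕ, (1 + E * i).Coprime (Nat.card A))
    (lam : A →* ℂ) [DecidablePred fun mu : A →* ℂ => ∃ i, mu = lam ^ (1 + E * i)]
    (h : (A →* ℂ) → ℂ) :
    ∑ mu ∈ Finset.univ.filter (fun mu : A →* ℂ => ∃ i, mu = lam ^ (1 + E * i)), h mu =
      ∑ i ∈ Finset.range (orderOf (lam ^ E)), h (lam * (lam ^ E) ^ i) := by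
  classical
  have hpos : 0 < orderOf (lam ^ E) := by
    rw [orderOf_pos_iff, isOfFinOrder_iff_pow_eq_one]
    refine ⟨Nat.card A, Nat.card_pos, ?_⟩
    rw [← pow_mul, mul_comm, pow_mul, hom_pow_card, one_pow]
  have h1 : Finset.univ.filter (fun mu : A →* ℂ => ∃ i, mu = lam ^ (1 + E * i)) =
      (Finset.range (orderOf (lam ^ E))).image fun i => lam * (lam ^ E) ^ i := by
    ext mu
    rw [Finset.mem_filter, Finset.mem_image]
    constructor
    · rintro ⟨-, i, rfl⟩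
      refine ⟨i % orderOf (lam ^ E), Finset.mem_range.2 (Nat.mod_lt _ hpos), ?_⟩
      rw [pow_mod_orderOf, ← pow_mul, pow_add, pow_one]
    · rintro ⟨i, -, rfl⟩
      exact ⟨Finset.mem_univ _, i, by rw [pow_add, pow_one, pow_mul]⟩
  rw [h1, Finset.sum_image]
  intro i hi j hj hij
  have h2 : (lam ^ E) ^ i = (lam ^ E) ^ j := by
    ext v
    have h3 := DFunLike.congr_fun hij v
    rw [MonoidHom.mul_apply, MonoidHom.mul_apply] at h3
    exact mul_left_cancel₀ (lam_ne lam v) h3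
  exact pow_injOn_Iio_orderOf (Set.mem_Iio.2 (Finset.mem_range.1 hi))
    (Set.mem_Iio.2 (Finset.mem_range.1 hj)) h2

/-- geometric sums of roots of unity -/
theorem geo_sum {M : Ideal (integralClosure ℤ ℂ)} [M.IsMaximal] (lam q : A →* ℂ) {d : ℕ}
    (hq : q ^ d = 1) (u : A) :
    ∃ t ∈ RM M, ∑ i ∈ Finset.range d, (lam * q ^ i) u = d * t := by
  have h1 : ∀ i ∈ Finset.range d, (lam * q ^ i) u = lam u * (q u) ^ i := fun i _ => by
    rw [MonoidHom.mul_apply, MonoidHom.pow_apply]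
  rw [Finset.sum_congr rfl h1, ← Finset.mul_sum]
  by_cases h : q u = 1
  · refine ⟨lam u, RM_of_int (T8.H21.lam_integral lam u), ?_⟩
    rw [h]
    simp [mul_comm]
  · refine ⟨0, (RM M).zero_mem, ?_⟩
    have h2 := geom_sum_mul (q u) d
    have h3 : (q u) ^ d = 1 := by
      have := DFunLike.congr_fun hq u
      rwa [MonoidHom.pow_apply, MonoidHom.one_apply] at this
    rw [h3, sub_self] at h2
    rw [(mul_eq_zero.1 h2).resolve_right (sub_ne_zero.2 h), mul_zero, mul_zero]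

end chars

/-- CNA -/
theorem cna : CnaStmt := by
  intro ℓ hp M _ hM G _ _ N h5 χ hχ hN
  have hℓ : ℓ.Prime := hp.out
  refine ⟨fun x y => irr_conj hχ x y, fun x => RM_of_int (irr_integral hχ x), ?_⟩
  intro x w hw hwx c
  obtain ⟨e, K, hE1, hE2, hE3⟩ := exists_e ℓ N h5
  obtain ⟨E, hE⟩ : ∃ E, E = e * ℓ ^ T5.ep ℓ := ⟨_, rfl⟩
  rw [← hE] at hE3
  -- the abelian group
  obtain ⟨A, hA⟩ : ∃ A : Subgroup G, A = Subgroup.closure {x, w} := ⟨_, rfl⟩
  have hcomm : ∀ a ∈ A, ∀ b ∈ A, a * b = b * a := by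
    have h1 : IsMulCommutative (Subgroup.closure ({x, w} : Set G)) := by
      apply Subgroup.isMulCommutative_closure
      rintro a (rfl | rfl) b (rfl | rfl)
      · rfl
      · exact hwx.symm
      · exact hwx
      · rfl
    rw [hA]
    intro a ha b hb
    have h2 := h1.is_comm.comm ⟨a, ha⟩ ⟨b, hb⟩
    exact congrArg Subtype.val h2
  have hcomm' : ∀ a b : A, a * b = b * a := fun a b => Subtype.ext (hcomm a a.2 b b.2)
  have hxA : x ∈ A := by
    rw [hA]
    exact Subgroup.subset_closure (Or.inl rfl)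
  have hwA : w ∈ A := by
    rw [hA]
    exact Subgroup.subset_closure (Or.inr rfl)
  have hcopA : ∀ i : ℕ, (1 + E * i).Coprime (Nat.card A) := fun i =>
    Nat.Coprime.coprime_dvd_right (Subgroup.card_subgroup_dvd_card A) (hE3 i).1
  have := Fintype.ofFinite A
  have := T8.H21.finite_hom (V := A)
  have := Fintype.ofFinite (A →* ℂ)
  classical
  -- the coefficients
  obtain ⟨f, hf⟩ : ∃ f : A → ℂ, f = fun v : A => χ v := ⟨_, rfl⟩
  have hinv := T8.H21.inversion hcomm' f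
  have hmR : ∀ lam : A →* ℂ, T8.H21.cf f lam ∈ RM M := by
    intro lam
    have hIp : T8.Ip M A (fun g : G => if g = 1 then (1 : ℂ) else 0) := by
      refine ⟨fun g => ?_, ?_, fun v _ t => ?_⟩
      · by_cases hg : g = 1
        · simp only [if_pos hg]
          exact (RM M).one_mem
        · simp only [if_neg hg]
          exact (RM M).zero_mem
      · funext g
        unfold mulF
        rw [finsum_eq_single _ (1 : G)]
        · simp
        · intro t ht
          simp [ht]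
      · have h1 : v * t * v⁻¹ = 1 ↔ t = 1 := by
          constructor
          · intro h
            have : t = v⁻¹ * (v * t * v⁻¹) * v := by group
            rw [this, h]
            group
          · rintro rfl
            group
        simp only [h1]
    obtain ⟨m, hm⟩ := T8.H53.fch M G A hcomm _ hIp χ hχ lam
    have h2 : T8.H21.cf f lam = m := by
      rw [← hm]
      unfold T8.H21.cf
      congr 1
      refine finsum_congr fun v => ?_
      congr 1
      unfold T8.fv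
      rw [finsum_eq_single _ (1 : G)]
      · simp [hf]
      · intro t ht
        simp [ht]
    rw [h2]
    exact natCast_mem (RM M) m
  have hχk : ∀ (k : ℕ) (g : G), χ (g ^ N ^ k) = χ g := by
    intro k g
    induction k with
    | zero => rw [pow_zero, pow_one]
    | succ k ih => rw [pow_succ, pow_mul, hN, ih]
  have hfa : ∀ (i : ℕ) (v : A), f (v ^ (1 + E * i)) = f v := by
    intro i v
    obtain ⟨k, hk⟩ := (hE3 i).2
    have h1 := hk v
    rw [hf]
    change χ (((v ^ (1 + E * i) : A)) : G) = χ v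
    rw [Subgroup.coe_pow, ← h1, hχk]
  have hminv : ∀ (lam : A →* ℂ) (i : ℕ),
      T8.H21.cf f (lam ^ (1 + E * i)) = T8.H21.cf f lam := by
    intro lam i
    rw [T8.H21.cf_eq, T8.H21.cf_eq]
    congr 1
    rw [← Equiv.sum_comp (powCoprime (hcopA i).symm) (fun v => f v * lam v⁻¹)]
    refine Finset.sum_congr rfl fun v _ => ?_
    change _ = f (v ^ (1 + E * i)) * lam (v ^ (1 + E * i))⁻¹
    rw [hfa, MonoidHom.pow_apply, ← map_pow, inv_pow]
  -- the difference
  obtain ⟨z, hz⟩ : ∃ z : G, z = w ^ ℓ ^ (c + 1) := ⟨_, rfl⟩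
  have hzA : z ∈ A := by
    rw [hz]
    exact A.pow_mem hwA _
  rw [← hz]
  have e1 : χ (x * z) = ∑ lam : A →* ℂ, T8.H21.cf f lam * lam (⟨x, hxA⟩ * ⟨z, hzA⟩) := by
    rw [← hinv, hf]
    rfl
  have e2 : χ x = ∑ lam : A →* ℂ, T8.H21.cf f lam * lam ⟨x, hxA⟩ := by
    rw [← hinv, hf]
  rw [e1, e2, ← Finset.sum_sub_distrib]
  have hpart := Finset.sum_partition (s := (Finset.univ : Finset (A →* ℂ)))
    (f := fun lam : A →* ℂ => T8.H21.cf f lam * lam (⟨x, hxA⟩ * ⟨z, hzA⟩) -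
      T8.H21.cf f lam * lam ⟨x, hxA⟩) (rel A E hcopA)
  rw [hpart]
  refine dv_sum _ _ fun cl hcl => ?_
  obtain ⟨lam, -, rfl⟩ := Finset.mem_image.1 hcl
  have hfil : Finset.univ.filter (fun mu : A →* ℂ =>
      (Quotient.mk (rel A E hcopA) mu) = Quotient.mk (rel A E hcopA) lam) =
      Finset.univ.filter (fun mu : A →* ℂ => ∃ i, mu = lam ^ (1 + E * i)) := by
    apply Finset.filter_congr
    intro mu _
    rw [Quotient.eq]
    constructor
    · intro h
      exact (rel A E hcopA).symm h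
    · intro h
      exact (rel A E hcopA).symm h
  rw [hfil, class_sum E hcopA lam]
  obtain ⟨q, hq⟩ : ∃ q, q = lam ^ E := ⟨_, rfl⟩
  obtain ⟨d, hd⟩ : ∃ d, d = orderOf q := ⟨_, rfl⟩
  rw [← hq, ← hd]
  have hqd : q ^ d = 1 := by
    rw [hd]
    exact pow_orderOf_eq_one q
  have hcoef : ∀ i, T8.H21.cf f (lam * q ^ i) = T8.H21.cf f lam := by
    intro i
    rw [← hminv lam i, pow_add, pow_one, pow_mul, ← hq]
  have hterm : ∀ i ∈ Finset.range d, T8.H21.cf f (lam * q ^ i) *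
      (lam * q ^ i) (⟨x, hxA⟩ * ⟨z, hzA⟩) - T8.H21.cf f (lam * q ^ i) * (lam * q ^ i) ⟨x, hxA⟩ =
      T8.H21.cf f lam * ((lam * q ^ i) (⟨x, hxA⟩ * ⟨z, hzA⟩) - (lam * q ^ i) ⟨x, hxA⟩) := by
    intro i _
    rw [hcoef]
    ring
  rw [Finset.sum_congr rfl hterm, ← Finset.mul_sum]
  apply dv_mul (hmR lam)
  -- the order of `q`
  have hdK : d ∣ ℓ ^ K := by
    rw [hd, orderOf_dvd_iff_pow_eq_one, hq]
    ext v
    rw [MonoidHom.pow_apply, MonoidHom.pow_apply, MonoidHom.one_apply, ← pow_mul, ← map_pow]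
    have h1 : v ^ (E * ℓ ^ K) = 1 := by
      apply Subtype.ext
      rw [Subgroup.coe_pow, hE, show e * ℓ ^ T5.ep ℓ * ℓ ^ K = e * ℓ ^ K * ℓ ^ T5.ep ℓ by ring,
        pow_mul, hE2, one_pow]
      rfl
    rw [h1, map_one]
  obtain ⟨t, -, ht⟩ := (Nat.dvd_prime_pow hℓ).1 hdK
  rcases Nat.lt_or_ge t c with hlt | hge
  · -- small order
    have hep : T5.ep ℓ ≤ 2 := by
      unfold T5.ep
      split_ifs <;> norm_num
    have hlz : lam ⟨z, hzA⟩ = 1 := by
      have h1 : (⟨z, hzA⟩ : A) = ⟨w, hwA⟩ ^ (E * ℓ ^ t * ℓ ^ (c + 1 - T5.ep ℓ - t)) := by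
        apply Subtype.ext
        rw [Subgroup.coe_pow]
        change z = w ^ _
        have h2 : E * ℓ ^ t * ℓ ^ (c + 1 - T5.ep ℓ - t) = e * ℓ ^ (c + 1) := by
          rw [hE, mul_assoc, mul_assoc, ← pow_add, ← pow_add]
          congr 2
          omega
        rw [h2, pow_mul, hE1 w hw, hz]
      rw [h1, pow_mul, pow_mul, map_pow, map_pow, map_pow]
      have h3 := DFunLike.congr_fun hqd ⟨w, hwA⟩
      rw [MonoidHom.pow_apply, MonoidHom.one_apply, hq, MonoidHom.pow_apply, ht] at h3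
      rw [h3, one_pow]
    have hqz : q ⟨z, hzA⟩ = 1 := by
      rw [hq, MonoidHom.pow_apply, hlz, one_pow]
    rw [Finset.sum_eq_zero fun i _ => ?_]
    · exact dv_zero
    · rw [map_mul (lam * q ^ i), MonoidHom.mul_apply lam (q ^ i) ⟨z, hzA⟩, MonoidHom.pow_apply,
        hlz, hqz, one_pow, mul_one, mul_one, sub_self]
  · rw [Finset.sum_sub_distrib]
    obtain ⟨t₁, ht₁, h₁⟩ := geo_sum (M := M) lam q hqd (⟨x, hxA⟩ * ⟨z, hzA⟩)
    obtain ⟨t₂, ht₂, h₂⟩ := geo_sum (M := M) lam q hqd ⟨x, hxA⟩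
    rw [h₁, h₂, ht]
    refine ⟨(ℓ : ℂ) ^ (t - c) * (t₁ - t₂), (RM M).mul_mem ?_ ((RM M).sub_mem ht₁ ht₂), ?_⟩
    · exact (RM M).pow_mem (natCast_mem (RM M) ℓ) _
    · have h3 : (ℓ : ℂ) ^ t = (ℓ : ℂ) ^ c * (ℓ : ℂ) ^ (t - c) := by
        rw [← pow_add]
        congr 1
        omega
      push_cast
      rw [h3]
      ring

end Pool.Agent.PP.T6.H56
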